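import Pool.Agent.Helper65.TU.Stmts4
import Pool.Agent.Helper44.TU.JAM

/-! # Row JAMU of `Pool.Agent.Helper65.TU.Stmts4`: James' sequence with the constant 1/8 -/

open Set Filter Topology

namespace Pool.Agent.Helper65.TU

universe u

namespace S27

open S44

/-- a functional at distance 1/2 from a complete proper subspace -/
theorem jamu_core {D : Type u} [NormedAddCommGroup D] [NormedSpace ℝ D]
    {X : Type u} [NormedAddCommGroup X] [NormedSpace ℝ X] [CompleteSpace X]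
    (J : X →ₗᵢ[ℝ] (D →L[ℝ] ℝ)) (hns : ¬ Function.Surjective J) :
    ∃ F : D →L[ℝ] ℝ, (∀ f, F f ≤ ‖f‖) ∧
      ∀ {ι : Type u} [Finite ι] (x : ι → X), ∃ f : D, ‖f‖ ≤ 1 ∧ (∀ i, J (x i) f = 0) ∧
        3 * (1 / 8 : ℝ) ≤ F f := by
  have hclosed : IsClosed (range J) := J.isometry.isClosedEmbedding.isClosed_range
  have hcl : IsClosed ((LinearMap.range J.toLinearMap : Submodule ℝ (D →L[ℝ] ℝ)) :
      Set (D →L[ℝ] ℝ)) := by
    have e : ((LinearMap.range J.toLinearMap : Submodule ℝ (D →L[ℝ] ℝ)) :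
      Set (D →L[ℝ] ℝ)) = range J := by
      ext y
      simp
    rw [e]
    exact hclosed
  obtain ⟨F0, hF0, hF0d⟩ := riesz_lemma (r := 1 / 2) hcl (by
    by_contra h
    push Not at h
    exact hns fun y => by
      obtain ⟨z, hz⟩ := h y
      exact ⟨z, hz⟩) (by norm_num)
  have hc : 0 < ‖F0‖ := by
    refine norm_pos_iff.2 fun h => hF0 ?_
    rw [h]
    exact Submodule.zero_mem _
  set F : D →L[ℝ] ℝ := ‖F0‖⁻¹ • F0 with hFdef
  have hF1 : ‖F‖ ≤ 1 := by
    rw [hFdef, norm_smul, norm_inv, norm_norm, inv_mul_cancel₀ hc.ne']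
  have hdist : ∀ y : X, 1 / 2 ≤ ‖F - J y‖ := by
    intro y
    have h1 : 1 / 2 * ‖F0‖ ≤ ‖F0 - J (‖F0‖ • y)‖ := hF0d _ ⟨‖F0‖ • y, rfl⟩
    have h2 : F - J y = ‖F0‖⁻¹ • (F0 - J (‖F0‖ • y)) := by
      rw [map_smul, smul_sub, smul_smul, inv_mul_cancel₀ hc.ne', one_smul]
    rw [h2, norm_smul, norm_inv, norm_norm]
    have h3 := mul_le_mul_of_nonneg_left h1 (inv_nonneg.2 hc.le)
    have h4 : ‖F0‖⁻¹ * (1 / 2 * ‖F0‖) = 1 / 2 := by
      field_simp
    rw [h4] at h3
    exact h3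
  refine ⟨F, fun f => ?_, fun {ι} _ x => ?_⟩
  · have := F.le_opNorm f
    have k := le_abs_self (F f)
    rw [Real.norm_eq_abs] at this
    nlinarith [norm_nonneg f]
  · by_contra hcon
    push Not at hcon
    obtain ⟨y, hys, hy⟩ := near_span F (3 * (1 / 8)) (by norm_num) (fun i => J (x i)) hcon
    have hle : Submodule.span ℝ (range fun i => J (x i)) ≤ LinearMap.range J.toLinearMap := by
      rw [Submodule.span_le]
      rintro _ ⟨i, rfl⟩
      exact ⟨x i, rfl⟩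
    obtain ⟨z, hz⟩ := hle hys
    have := hdist z
    have e : J z = y := hz
    rw [e] at this
    linarith

end S27

open S44 S27

theorem st_JAMU : ST_JAMU.{u} := by
  intro X _ _ _ hR
  classical
  obtain ⟨F, hF, hann⟩ := jamu_core (D := StrongDual ℝ X)
    (NormedSpace.inclusionInDoubleDualLi ℝ) (fun h => hR h)
  have hθ0 : (0 : ℝ) < 1 / 8 := by norm_num
  obtain ⟨w, hP, hr⟩ := exists_seq_of_forall_finset_exists
    (fun p : X × StrongDual ℝ X => ‖p.1‖ ≤ 1 ∧ ‖p.2‖ ≤ 1 ∧ 3 * (1 / 8) ≤ F p.2 ∧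
      1 / 8 ≤ p.2 p.1)
    (fun p q => q.2 p.1 = 0 ∧ 1 / 8 ≤ p.2 q.1) (by
      intro s hs
      obtain ⟨f', hf1, hf2, hf3⟩ := hann (fun p : s => p.1.1)
      obtain ⟨x', hx1, hx2⟩ := helly F.toLinearMap hF
        (fun o : Option s => o.elim f' fun p => p.1.2) (1 / 8) hθ0
      refine ⟨(x', f'), ⟨hx1, hf1, hf3, ?_⟩, fun p hp => ⟨hf2 ⟨p, hp⟩, ?_⟩⟩
      · have := hx2 none
        simp only [Option.elim] at this
        have h4 : F f' - 1 / 8 ≤ f' x' := this
        linarith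
      · have := hx2 (some ⟨p, hp⟩)
        simp only [Option.elim] at this
        have h3 := (hs p hp).2.2.1
        have h4 : F p.2 - 1 / 8 ≤ p.2 x' := this
        linarith)
  refine ⟨fun n => (w n).1, fun n => (w n).2, hθ0, fun n => (hP n).1, fun n => (hP n).2.1,
    fun n m hnm => ?_, fun n m hmn => ?_⟩
  · rcases eq_or_lt_of_le hnm with h | h
    · subst h
      exact (hP n).2.2.2
    · exact (hr n m h).2
  · exact (hr m n hmn).1

end Pool.Agent.Helper65.TU
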