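import Pool.Agent.Helper65.TU.Stmts5
import Pool.Agent.Helper65.TU.Basic

/-! # Row RQ3 of `Pool.Agent.Helper65.TU.Stmts5`: quotients by reflexive subspaces -/

open Set Filter Topology

namespace Pool.Agent.Helper65.TU

universe u

theorem st_RQ3 (h1 : ST_RQ1.{u}) : ST_RQ3.{u} := by
  intro X Z _ _ _ _ a T hT δ hδ H ε hε
  have ha1 : 1 ≤ a := hT.one
  have ha0 : 0 < a := by linarith
  have hai : 0 ≤ a⁻¹ := inv_nonneg.2 ha0.le
  obtain ⟨F, hF, hM⟩ := H (ε / a ^ 2) (by positivity)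
  -- the lifted set
  let P : Set Z → Set X := fun K => (fun x => a⁻¹ • x) '' {x : X | T x ∈ K ∧ ‖x‖ ≤ a}
  have hPK : ∀ K : Set Z, WCpt K → WCpt (P K) ∧ P K ⊆ Bl X := by
    intro K hK
    refine ⟨(h1 X Z a T hT K hK a).smul a⁻¹, ?_⟩
    rintro _ ⟨x, hx, rfl⟩
    show ‖a⁻¹ • x‖ ≤ 1
    rw [norm_smul, Real.norm_of_nonneg hai, inv_mul_le_iff₀ ha0, mul_one]
    exact hx.2
  let Q : X →L[ℝ] Z := a⁻¹ • T
  have hQ : ∀ x, Q x = a⁻¹ • T x := fun x => rfl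
  have hQn : ∀ x, ‖Q x‖ ≤ ‖x‖ := by
    intro y
    rw [hQ, norm_smul, Real.norm_of_nonneg hai]
    calc a⁻¹ * ‖T y‖ ≤ a⁻¹ * (a * ‖y‖) := mul_le_mul_of_nonneg_left (hT.nrm y) hai
      _ = ‖y‖ := by field_simp
  refine ⟨fun K => Q '' (F (P K)), fun K hK hKB => ?_, fun L hL hLB => ?_⟩
  · obtain ⟨h2, h3⟩ := hPK K hK
    obtain ⟨h4, h5⟩ := hF _ h2 h3
    refine ⟨h4.image Q, ?_⟩
    rintro _ ⟨x, hx, rfl⟩
    exact (hQn x).trans (h5 hx)
  · set r : ℝ := 1 + δ / 2 with hr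
    have hr0 : 0 < r := by positivity
    let L1 : Set X := {v | T v ∈ (fun z => a • z) '' L ∧ ‖v‖ ≤ r}
    let L2 : Set X := (fun x => r⁻¹ • x) '' L1
    have hL1 : WCpt L1 := h1 X Z a T hT _ (hL.smul a) r
    have hL2 : WCpt L2 := hL1.smul r⁻¹
    have hL2B : L2 ⊆ Bl X := by
      rintro _ ⟨x, hx, rfl⟩
      show ‖r⁻¹ • x‖ ≤ 1
      rw [norm_smul, Real.norm_of_nonneg (inv_nonneg.2 hr0.le), inv_mul_le_iff₀ hr0, mul_one]
      exact hx.2
    obtain ⟨M, hM1, hM2⟩ := hM L2 hL2 hL2B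
    refine ⟨(a • T) '' M, hM1.image _, fun K hK hKB hN => ?_⟩
    obtain ⟨h2, h3⟩ := hPK K hK
    obtain ⟨h4, h5⟩ := hF _ h2 h3
    have hN1 : Near δ (F (P K)) L2 := by
      intro x hx
      obtain ⟨l, hl, hxl⟩ := hN (Q x) ⟨x, hx, rfl⟩
      obtain ⟨w, hw, hwn⟩ := hT.lift (a • l - T x)
      have hv : T (x + w) = a • l := by rw [map_add, hw]; abel
      have hwn2 : ‖w‖ ≤ δ / 2 := by
        have e3 : a • l - T x = a • (l - Q x) := by
          rw [smul_sub, hQ, smul_smul, mul_inv_cancel₀ ha0.ne', one_smul]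
        rw [e3, norm_smul, Real.norm_of_nonneg ha0.le, norm_sub_rev] at hwn
        calc ‖w‖ ≤ a * (a * ‖Q x - l‖) := hwn
          _ ≤ a * (a * (δ / (2 * a ^ 2))) :=
              mul_le_mul_of_nonneg_left (mul_le_mul_of_nonneg_left hxl ha0.le) ha0.le
          _ = δ / 2 := by field_simp
      have e4 : ‖x‖ ≤ 1 := h5 hx
      have e5 : ‖x + w‖ ≤ r := (norm_add_le _ _).trans (by rw [hr]; linarith)
      refine ⟨r⁻¹ • (x + w), ⟨_, ⟨⟨l, hl, hv.symm⟩, e5⟩, rfl⟩, ?_⟩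
      have e7 : ‖(x + w) - r⁻¹ • (x + w)‖ ≤ δ / 2 := by
        have e8 : (x + w) - r⁻¹ • (x + w) = (1 - r⁻¹) • (x + w) := by
          rw [sub_smul, one_smul]
        have e9 : 0 ≤ 1 - r⁻¹ := by
          rw [sub_nonneg]
          exact inv_le_one_of_one_le₀ (by rw [hr]; linarith)
        rw [e8, norm_smul, Real.norm_of_nonneg e9]
        calc (1 - r⁻¹) * ‖x + w‖ ≤ (1 - r⁻¹) * r := mul_le_mul_of_nonneg_left e5 e9
          _ = r - 1 := by field_simp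
          _ = δ / 2 := by rw [hr]; ring
      calc ‖x - r⁻¹ • (x + w)‖ = ‖(-w) + ((x + w) - r⁻¹ • (x + w))‖ := by
            congr 1; abel
        _ ≤ δ / 2 + δ / 2 := (norm_add_le _ _).trans (add_le_add (by rw [norm_neg]; exact hwn2) e7)
        _ = δ := by ring
    have hN2 := hM2 _ h2 h3 hN1
    intro z hz
    obtain ⟨x, hx, hxn⟩ := hT.lift z
    have hxa : ‖x‖ ≤ a := by
      have h6 : ‖z‖ ≤ 1 := hKB hz
      calc ‖x‖ ≤ a * ‖z‖ := hxn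
        _ ≤ a * 1 := mul_le_mul_of_nonneg_left h6 ha0.le
        _ = a := mul_one a
    obtain ⟨m, hm, hym⟩ := hN2 (a⁻¹ • x) ⟨x, ⟨by show T x ∈ K; rw [hx]; exact hz, hxa⟩, rfl⟩
    refine ⟨(a • T) m, ⟨m, hm, rfl⟩, ?_⟩
    have e3 : z - (a • T) m = a • T (a⁻¹ • x - m) := by
      show z - a • T m = _
      rw [map_sub, map_smul, smul_sub, smul_smul, mul_inv_cancel₀ ha0.ne', one_smul, hx]
    rw [e3, norm_smul, Real.norm_of_nonneg ha0.le]
    calc a * ‖T (a⁻¹ • x - m)‖ ≤ a * (a * (ε / a ^ 2)) :=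
          mul_le_mul_of_nonneg_left ((hT.nrm _).trans (mul_le_mul_of_nonneg_left hym ha0.le)) ha0.le
      _ = ε := by field_simp

end Pool.Agent.Helper65.TU
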